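import Pool.Agent.Lib.MP_62ba83_co.Mirror

set_option autoImplicit false

namespace Pool.Agent.Lib.MP_62ba83_co.Old.Isogonal

open Pool.Agent.Lib.MP_62ba83_co

/-- `S` is rationally approximable: for every `ε > 0` some set with all distances rational has a
point within `ε` of each point of `S`. The plane is `ℂ`. -/
def Approx (S : Set ℂ) : Prop :=
  ∀ ε : ℝ, 0 < ε → ∃ X : Set ℂ, (∀ x ∈ X, ∀ y ∈ X, ∃ r : ℚ, dist x y = r) ∧
    ∀ p ∈ S, ∃ x ∈ X, dist p x < ε

theorem result (A B C P Q : ℂ) (h1 : ((P - A) * (Q - A) / ((B - A) * (C - A))).im = 0)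
    (h2 : ((P - B) * (Q - B) / ((C - B) * (A - B))).im = 0) : Approx {A, B, C, P, Q} :=
  (isog_ap (div_im_zero h1) (div_im_zero h2)).out

end Pool.Agent.Lib.MP_62ba83_co.Old.Isogonal
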